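import Pool.Agent.U744.BC2.LC
import Pool.Agent.U744.BC2.Poin

/-!
# The equality case for Wasserstein barycenters of log-concave measures

Q2 has a negative answer in every dimension `n ≥ 5`: the measures `μ i` can all split off a
curvature-saturating Gaussian factor in one and the same direction while `√(C_P(ν))` is larger than
any given multiple of `∑ w i / √(κ i)`, so that equality does not hold.

The proof. Take measures `μ i` on `ℝ^(n-1)`, with one common `κ`, whose barycenter `ν` violates the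
bound (`MP_7c2736_pr.NoPoincareBound`), and multiply everything by `N(0, 1/κ)`. The products are
`κ`-strongly log-concave, `N(0, 1/κ) ⊗ ν` is a barycenter of them (couplings with the products
project to couplings with the factors), and its Poincaré constant is at least `C_P(ν)` (cut off test
functions of the second factor).
-/

set_option autoImplicit false

namespace Pool.Agent.Results.MP_7c2736_pr.EqualityCase

open MeasureTheory ProbabilityTheory Pool.Agent.U744.BC2
open Pool.Agent.Results.MP_7c2736_pr.NoPoincareBound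
open scoped ENNReal RealInnerProductSpace

/-- `ρ` is a probability measure on `e^⊥`, that is, a probability measure on `ℝⁿ` with
`ρ (e^⊥) = 1`. -/
def IsProbOnPerp {n : ℕ} (e : E n) (ρ : Measure (E n)) : Prop :=
  IsProbabilityMeasure ρ ∧ ρ {y | ⟪e, y⟫ = 0} = 1

/-- The law of `s e + y`, where `s` and `y` are independent with laws `g` and `ρ`. -/
noncomputable def sumLaw {n : ℕ} (e : E n) (g : Measure ℝ) (ρ : Measure (E n)) : Measure (E n) :=
  (g.prod ρ).map fun p => p.1 • e + p.2

/-- The measure `μ` splits off a curvature-saturating Gaussian factor in the direction `e`: under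
`ℝⁿ = ℝ e ⊕ e^⊥` it is `N(⟨e, m⟩, 1 / κ) ⊗ ρ` for some probability measure `ρ` on `e^⊥`, where
`⟨e, m⟩ = ∫ ⟨e, x⟩ dμ(x)`, `m` the mean of `μ`. -/
def SplitsOff {n : ℕ} (κ : ℝ) (e : E n) (μ : Measure (E n)) : Prop :=
  ∃ ρ : Measure (E n), IsProbOnPerp e ρ ∧
    μ = sumLaw e (gaussianReal (∫ x, ⟪e, x⟫ ∂μ) (Real.toNNReal κ⁻¹)) ρ

/-- The data of the questions in dimension `n`: positive weights with sum one, `κ i > 0`,
probability measures `μ i` which are `κ i`-strongly log-concave, and a barycenter `ν` of them. -/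
def IsData {n N : ℕ} (w κ : Fin N → ℝ) (μ : Fin N → Measure (E n)) (ν : Measure (E n)) : Prop :=
  (∀ i, 0 < w i) ∧ ∑ i, w i = 1 ∧ (∀ i, 0 < κ i) ∧ (∀ i, IsProbabilityMeasure (μ i)) ∧
    (∀ i, StronglyLogConcave (κ i) (μ i)) ∧ IsBarycenter w μ ν

/-- There is one unit vector in the direction of which all `μ i` split off a curvature-saturating
Gaussian factor. -/
def AllSplit {n N : ℕ} (κ : Fin N → ℝ) (μ : Fin N → Measure (E n)) : Prop :=
  ∃ e : E n, ‖e‖ = 1 ∧ ∀ i, SplitsOff (κ i) e (μ i)

/-- The claim of Q2 in dimension `n`: for all data, `√(C_P(ν)) = ∑ w i / √(κ i)` if and only if all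
`μ i` split off a curvature-saturating Gaussian factor in one direction. -/
def EqualityClaim (n : ℕ) : Prop :=
  ∀ (N : ℕ) (w κ : Fin N → ℝ) (μ : Fin N → Measure (E n)) (ν : Measure (E n)), IsData w κ μ ν →
    (poincareConst ν ^ (1 / 2 : ℝ) = ENNReal.ofReal (∑ i, w i / √(κ i)) ↔ AllSplit κ μ)

/-- In dimension `n` there are data for which all `μ i` split off a curvature-saturating Gaussian
factor in one direction, but `√(C_P(ν)) > C ∑ w i / √(κ i)`. -/
def SplitViolation (n : ℕ) (C : ℝ) : Prop :=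
  ∃ (N : ℕ) (w κ : Fin N → ℝ) (μ : Fin N → Measure (E n)) (ν : Measure (E n)),
    IsData w κ μ ν ∧ AllSplit κ μ ∧
    ENNReal.ofReal (C * ∑ i, w i / √(κ i)) < poincareConst ν ^ (1 / 2 : ℝ)

/-- the unit vector of the additional coordinate -/
noncomputable def e0 (m : ℕ) : E (m + 1) := Ph m (1, 0)

lemma norm_e0 (m : ℕ) : ‖e0 m‖ = 1 := by
  have h := norm_sq_Ph (m := m) (1, 0)
  have h1 : ‖e0 m‖ ^ 2 = 1 ^ 2 := by rw [e0, h]; simp
  exact (sq_eq_sq₀ (norm_nonneg _) zero_le_one).1 h1

lemma Ph_eq (m : ℕ) (p : ℝ × E m) : Ph m p = p.1 • e0 m + Ph m (0, p.2) := by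
  unfold e0 Ph
  rw [← map_smul, ← map_add]
  congr 1
  apply (WithLp.prodContinuousLinearEquiv 2 ℝ ℝ (E m)).injective
  ext <;> simp

lemma inner_e0 (m : ℕ) (p : ℝ × E m) : ⟪e0 m, Ph m p⟫ = p.1 := by
  unfold e0 Ph
  rw [LinearIsometryEquiv.inner_map_map, WithLp.prod_inner_apply]
  simp

lemma splitsOff_prodM {m : ℕ} {κ : ℝ} (μ : Measure (E m)) [IsProbabilityMeasure μ] :
    SplitsOff κ (e0 m) (prodM (gaussianReal 0 (Real.toNNReal κ⁻¹)) μ) := by
  have hmeas : Measurable fun y : E m => Ph m (0, y) := by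
    have := measurable_Ph (m := m)
    fun_prop
  have hmean : ∫ x, ⟪e0 m, x⟫ ∂(prodM (gaussianReal 0 (Real.toNNReal κ⁻¹)) μ) = 0 := by
    unfold prodM
    rw [integral_map measurable_Ph.aemeasurable (by fun_prop)]
    simp only [inner_e0]
    have h := integral_map (μ := (gaussianReal 0 (Real.toNNReal κ⁻¹)).prod μ)
      (φ := (Prod.fst : ℝ × E m → ℝ)) (f := fun s : ℝ => s) measurable_fst.aemeasurable
      measurable_id.aestronglyMeasurable
    rw [← h, Measure.map_fst_prod]
    simp [integral_id_gaussianReal]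
  refine ⟨μ.map fun y => Ph m (0, y),
    ⟨Measure.isProbabilityMeasure_map hmeas.aemeasurable, ?_⟩, ?_⟩
  · have hms : MeasurableSet {y : E (m + 1) | ⟪e0 m, y⟫ = 0} :=
      measurableSet_eq_fun (by fun_prop) measurable_const
    rw [Measure.map_apply hmeas hms]
    have h : (fun y : E m => Ph m (0, y)) ⁻¹' {y : E (m + 1) | ⟪e0 m, y⟫ = 0} = Set.univ := by
      ext y
      simp [inner_e0]
    rw [h, measure_univ]
  · rw [hmean]
    unfold prodM sumLaw
    rw [← Measure.map_id (μ := gaussianReal 0 (Real.toNNReal κ⁻¹)),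
      Measure.map_prod_map _ _ measurable_id hmeas, Measure.map_map (by fun_prop) (by fun_prop),
      Measure.map_id]
    congr 1
    funext p
    exact Ph_eq m p

/-- **Q2 fails in every dimension `n ≥ 5`**, and even for splitting measures nothing like equality holds: for every
`C` there are data for which all `μ i` split off a curvature-saturating Gaussian factor in one
direction, but `√(C_P(ν)) > C ∑ w i / √(κ i)`. -/
theorem result (n : ℕ) (hn : 5 ≤ n) : (∀ C : ℝ, SplitViolation n C) ∧ ¬ EqualityClaim n := by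
  have main : ∀ C : ℝ, SplitViolation n C := by
    intro C
    obtain ⟨m, rfl⟩ : ∃ m, n = m + 1 := ⟨n - 1, by omega⟩
    obtain ⟨N, w, κ, μ, ν, hw, hw1, -, hκ, hκ1, hμ, hlc, hb, hC⟩ :=
      NoPoincareBound.result m (by omega) C
    set κ₀ : ℝ := 1 / (10 * (m : ℝ) ^ 2) with hκ₀
    have hN : 0 < N := by
      rcases Nat.eq_zero_or_pos N with h0 | h0
      · subst h0
        simp at hw1
      · exact h0
    have hκ₀pos : 0 < κ₀ := by
      have h := hκ ⟨0, hN⟩
      rwa [hκ1] at h
    have hν : IsProbabilityMeasure ν := hb.1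
    refine ⟨N, w, κ, fun i => prodM (gaussianReal 0 (Real.toNNReal κ₀⁻¹)) (μ i),
      prodM (gaussianReal 0 (Real.toNNReal κ₀⁻¹)) ν,
      ⟨hw, hw1, hκ, fun i => ?_, fun i => ?_, ?_⟩, ⟨e0 m, norm_e0 m, fun i => ?_⟩, ?_⟩
    · have := hμ i
      infer_instance
    · have h := hlc i
      rw [hκ1 i] at h ⊢
      exact slc_prodM hκ₀pos (hμ i) h
    · exact isBarycenter_prodM _ w μ ν hμ hb
    · have := hμ i
      rw [hκ1 i]
      exact splitsOff_prodM (μ i)
    · exact hC.trans_le (ENNReal.rpow_le_rpow (poincareConst_le_prodM _ ν) (by norm_num))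
  refine ⟨main, fun hclaim => ?_⟩
  obtain ⟨N, w, κ, μ, ν, hdata, hsplit, hlt⟩ := main 1
  have h := (hclaim N w κ μ ν hdata).2 hsplit
  rw [h, one_mul] at hlt
  exact lt_irrefl _ hlt

end Pool.Agent.Results.MP_7c2736_pr.EqualityCase
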